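import Mathlib
import Pool.Agent.Helper55K1.NE.Pure

set_option autoImplicit false

/-!
# Non-evasive balls that are not locally constructible exist in every dimension at least 4

In every dimension `d ≥ 4` there is a triangulated `d`-ball with `d + 9` vertices which is
non-evasive but not locally constructible.  The complexes are the iterated cones over an explicit
12-vertex triangulation of the 3-ball with 38 tetrahedra in which an edge is knotted.

* A cone is non-evasive, and the cone over a ball is a ball (`NE/Cone.lean`).
* The 12-vertex complex is a 3-ball: it is joined to the simplex by a chain of 46 stellar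
  exchanges (`NE/Ball.lean`).
* It is not locally constructible: every stage of a local construction carries a section of a
  triple cover of the complement of the knotted edge, while the complex has no global section
  (`NE/Flat.lean`, `NE/NotLC.lean`).
* If a cone is locally constructible, then so is its base (`NE/ConeLC.lean`).
-/

namespace Pool.Agent.Results.MP_9638d9_co.NonEvasiveBallNotLC

open Pool.Agent.H933R3 Pool.Agent.Y364.E3 Pool.Agent.Helper55K1.NE

theorem result : ∀ d : ℕ, 4 ≤ d → ∃ K : Finset (Finset (Fin (d + 9))),
    IsCx K ∧ IsBall d K ∧ (∀ F, IsFacet K F → F.card = d + 1) ∧ AtMostTwo d K ∧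
      NonEvasive K ∧ ¬ IsTreeLC d K := by
  have key : ∀ k : ℕ, ∃ K : Finset (Finset (Fin (k + 12))),
      IsCx K ∧ IsBall (k + 3) K ∧ Pseudo (k + 3) K ∧ ¬ IsLC (k + 3) K := by
    intro k
    induction k with
    | zero => exact ⟨cx (0 + 12) Pm, isCx_cx (by decide), isBall_P, pseudo_P, not_isLC_P⟩
    | succ k ih =>
      obtain ⟨K, h1, h2, h6, h3⟩ := ih
      have h4 : k + 1 + 12 = k + 12 + 1 := by omega
      have h5 : k + 1 + 3 = k + 3 + 1 := by omega
      rw [h4, h5]
      exact ⟨cone K, isCx_cone h1, isBall_cone h2, pseudo_cone h6, fun h => h3 (isLC_of_cone h)⟩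
  intro d hd
  obtain ⟨k, rfl⟩ : ∃ k, d = k + 4 := ⟨d - 4, by omega⟩
  obtain ⟨K, h1, h2, h6, h3⟩ := key k
  have h4 : k + 4 + 9 = k + 12 + 1 := by omega
  have h5 : k + 4 = k + 3 + 1 := by omega
  rw [h4, h5]
  exact ⟨cone K, isCx_cone h1, isBall_cone h2, (pseudo_cone h6).1, (pseudo_cone h6).2,
    nonEvasive_cone h1, fun h => h3 (isLC_of_cone (isLC_of_isTreeLC h))⟩

end Pool.Agent.Results.MP_9638d9_co.NonEvasiveBallNotLC
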